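import Pool.Agent.L7h85.GR.AbF

/-!
# The numbers of the algebraic classes and of the Tate classes on the powers of an abelian variety

Let `A` be an abelian variety of dimension `g` over an algebraic closure of a finite field. Let

* `c(n)` be the rank of the group of all cycles on `A ^ n` modulo numerical equivalence,
* `t(n)` the dimension of the space of all Tate classes on `A ^ n`,
* `δ` the angle rank of `A`, the rank of the group generated by the numbers `α ^ 2 / q`, where `α` is
  an eigenvalue of the Frobenius endomorphism on `H^1(A)`.

Theorem. There are subgroups `R ≤ T` of `ℤ ^ g` such that, for all `n ≥ 1`,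

  `c(n) = ∑_{r ∈ R} ∏_i C(2 n, n + r_i)`,  `t(n) = ∑_{r ∈ T} ∏_i C(2 n, n + r_i)`,

the rank of `T` is `g - δ`, and the Tate conjecture and the conjecture `hom = num` hold for all powers
of `A` if and only if `R = T`. With `ρ = g - rank R` there are constants `κ, κ' > 0` such that

  `c(n) ~ κ 4 ^ (g n) / n ^ (ρ / 2)`,  `t(n) ~ κ' 4 ^ (g n) / n ^ (δ / 2)`,

and `κ' / κ` is a natural number if `ρ = δ`.

So the Tate classes exceed the algebraic classes exactly by a power of `n`, with an integer or half
integer exponent: either `t(n) / c(n)` tends to a natural number, or `t(n) / c(n) ~ λ n ^ (k / 2)` for an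
integer `k ≥ 1` and a constant `λ > 0`. Known before: `t(n) / c(n)` tends to a natural number or to
infinity (`PositiveProportion`), in the second case not slower than `√(n / log n)` (`RootLaw`), and
`t(n) ^ 2 ≤ (4 n) ^ (g - 1) c(n) ^ 2` (`OnePowerIndex`).

The proof. The cohomology of `A ^ n` is the exterior algebra on `n` copies of the eigenvectors of
Frobenius in `H^1(A)` (the letters), which come in `g` pairs with product `q`. By `OnePowerIndex` the
algebraic classes modulo numerical equivalence, and the Tate classes, are spanned by the products of
letters whose vectors of multiplicities lie in certain groups, which contain the sums of the two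
letters of a pair; so both numbers are numbers of closed random walks with `n` steps in a finitely
generated abelian group `ℤ ^ ρ × F`, where one step is a random subset of the letters. The local limit
theorem for these walks is proved with the characters of the group: the sum of the integrals of the
`n`-th powers of the mean values of the characters, where only the trivial character of `F` near zero
contributes (Laplace's method).

The setting is that of the starting files: `W` is a Weil cohomology theory on smooth projective
varieties over an algebraic closure of a finite field, `Φ` the system of Frobenius endomorphisms,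
`pw A n` the power with `n + 1` factors, `IsAbelian Φ A m D₀` says that `A` has the known properties of
an abelian variety with addition `m` and ample divisor `D₀`; `corank P` is the rank of `ℤ ^ g / P`, and
`Growth f a r κ` says that `f n ~ κ a ^ (n + 1) / (n + 1) ^ (r / 2)`.
-/

set_option autoImplicit false

open CategoryTheory AlgebraicGeometry Filter Topology

universe u v

namespace Pool.Agent.Results.MP_ee618e_ag.ExactGrowth

open Pool.Agent.H914 Pool.Agent.W534 Pool.Agent.R940 VarClass Obj WeilCohomology Module
open Pool.Agent.Y133.Half (tateDim cycRank)
open Pool.Agent.Y129 (pw)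
open Pool.Agent.N181.Ab (IsAbelian)
open Pool.Agent.H447 (HomEqNumIn)
open Pool.Agent.L7h85.GR (latN corank angleRank Growth)

/-- **The numbers of the algebraic classes and of the Tate classes on the powers of an abelian
variety.** -/
theorem result {k : Type u} [Field k] {𝒱 : VarClass k} {ops : CycleOps 𝒱}
    (W : WeilCohomology.{u, v} ops) [IsAlgClosed W.K] (p : ℕ) [Fact p.Prime]
    (Φ : FrobSystem W p) (A : 𝒱.Obj) [Nontrivial (W.H A)] (m : A.prod A ⟶ A) (D₀ : A.Cycles)
    (hA : IsAbelian Φ A m D₀) :
    ∃ R T : AddSubgroup (Fin A.dim → ℤ), R ≤ T ∧
      corank T = angleRank Φ A ∧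
      (∀ n, cycRank ops (pw A n) = latN R (n + 1)) ∧
      (∀ n, tateDim Φ (pw A n) = latN T (n + 1)) ∧
      ((∀ n j, TateIn Φ (pw A n) j ∧ HomEqNumIn W (pw A n) j) ↔ R = T) ∧
      ∃ κ κ' : ℝ, 0 < κ ∧ 0 < κ' ∧
        Growth (fun n => cycRank ops (pw A n)) (4 ^ A.dim) (corank R) κ ∧
        Growth (fun n => tateDim Φ (pw A n)) (4 ^ A.dim) (corank T) κ' ∧
        (corank R = corank T → ∃ N : ℕ, 0 < N ∧ κ' = N * κ) :=
  Pool.Agent.L7h85.GR.growth_full hA

end Pool.Agent.Results.MP_ee618e_ag.ExactGrowth
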