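import Pool.Agent.L7h94.FP.Main

/-!
# The first power of an abelian variety over a finite field with an exotic Tate class

Let `A` be an abelian variety of dimension `g` over the field with `q = p ^ a` elements. By theorems
of Tate the Frobenius endomorphism acts semisimply on `V = H¹(A)` (with coefficients in an
algebraically closed field `Ω` of characteristic zero, for example an algebraic closure of `ℚ_ℓ`), the
cohomology algebra of the power `A ^ N` is the exterior algebra of `V ^ N`, and the Tate classes of
codimension one are the linear combinations of the classes of divisors. So the Tate conjecture holds
for `A ^ N`, over all finite extensions of the ground field, for all `ℓ` and in all degrees, if there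
are no *exotic* Tate classes on `A ^ N`: if all Tate classes are linear combinations of products of
Tate classes of codimension one over finite extensions (`NoExotic`).

If there are exotic Tate classes on some power of `A`, on which power do they appear? Let `k` be the
number of the isogeny classes of the simple factors of `A` (the number of the different irreducible
factors of the characteristic polynomial `P` of the Frobenius endomorphism), and let `D` be a common
denominator of the slopes of `A` (`D = 1` if `A` is ordinary). We prove that they appear on `A ^ N` for
every

  `N ≥ exp (16 * √(k * g) * log (2 * g) * log (2 * g * D))`.

More precisely, if there are no exotic Tate classes on this one power then there are none on any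
abelian variety `B`, over any finite extension, all of whose simple factors over the algebraic closure
are factors of `A` or supersingular (`FactorsAmong`); so the Tate conjecture is true for all of them.

For ordinary absolutely simple abelian varieties the bound is
`exp (16 * √g * (log (2 * g)) ^ 2)`. It is optimal up to the power of the logarithm in the exponent: by
the result `MP_ee618e_ag.LateExoticPowers` of the starting files there are ordinary absolutely simple
abelian varieties of dimension `g` such that there are exotic Tate classes on some power of `A`, but none
on `A ^ r` for `r < 3 * 2 ^ (√g - 6) / √g`. The theorem of Siegel or Hadamard's inequality for the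
matrix of the slopes only give bounds of the size `g ^ (g / 2)`.

The proof. Exotic classes come from integral functions `n` on the set `X` of the Frobenius
eigenvalues (up to roots of unity), odd under `α ↦ q / α`, with `∑ n (x) v (σ x) = 0` for all
automorphisms `σ`, `v` the slope function; the power which is needed is the maximum of `2 |n|`. Take a
minimal Galois stable space `S` of such functions, of dimension `d`. If `d² k ≥ g`, the lemma of Siegel
gives a small solution since there are at least `d` solutions in `2 g` unknowns. If `d² k < g`, then
the image of the Galois group in `GL (S)` has order at most `(2 g) ^ b`, `b = (d / h) log d + 1`,
where `h` is the dimension of the space of vectors of `S` fixed by a suitable point stabilizer; so the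
central element of the group ring given by the character of `S` has small coefficients, its image
is spanned by small integral vectors and has dimension at most `k h d`, and the lemma of Siegel, applied
in this space, gives a small solution.
-/

set_option autoImplicit false

namespace Pool.Agent.Results.MP_ee618e_ag.FirstExoticPower

open Module Polynomial Pool.Agent.L7h94.FP

/-- **The first power with an exotic Tate class.** Let `P` be the characteristic polynomial of the
Frobenius endomorphism of an abelian variety `A` of dimension `g` over the field with `q = p ^ a`
elements, all of whose roots are roots of `k` irreducible polynomials over `ℚ`, and let `D` be a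
common denominator of the slopes. If there are no exotic Tate classes on the single power `A ^ N` for
some `N ≥ exp (16 * √(k * g) * log (2 * g) * log (2 * g * D))`, then there are none on all abelian
varieties `B`, over the extension of any degree `r` of the ground field, whose simple factors over the
algebraic closure are factors of `A` or supersingular. -/
theorem result (p : ℕ) [Fact p.Prime] (a : ℕ) (ha : 0 < a)
    -- the characteristic polynomial of the Frobenius endomorphism of `A`
    (P : ℤ[X]) (hP : P.Monic)
    (hweil : ∀ z : ℂ, (P.map (Int.castRingHom ℂ)).IsRoot z → ‖z‖ ^ 2 = (p : ℝ) ^ a)
    -- the dimension, the number of factors and the common denominator of the slopes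
    (g k D : ℕ) (hg : P.natDegree = 2 * g) (hD : 1 ≤ D) (hslope : SlopeDenominator p a P D)
    (f : Fin k → ℚ[X]) (hf : ∀ i, Irreducible (f i))
    (hfP : ∀ z : ℂ, (P.map (Int.castRingHom ℂ)).IsRoot z → ∃ i, aeval z (f i) = 0)
    -- the exponent
    (N : ℕ) (hN : Real.exp (16 * √(k * g) * Real.log (2 * g) * Real.log (2 * g * D)) ≤ N)
    -- the first cohomology group of `A`
    (Ω V : Type) [Field Ω] [IsAlgClosed Ω] [CharZero Ω] [AddCommGroup V] [Module Ω V]
    (F : Module.End Ω V) (hV : Pool.Agent.W518.TC.IsH1 P V F)
    -- there are no exotic Tate classes on `A ^ N`
    (hgen : NoExotic (power F N) (p ^ a))
    -- the first cohomology group of `B`
    (r : ℕ) (hr : 0 < r) (W : Type) [AddCommGroup W] [Module Ω W] [FiniteDimensional Ω W]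
    (Φ : Module.End Ω W) (hW : FactorsAmong P (p ^ a) r Φ) :
    NoExotic Φ ((p ^ a) ^ r) :=
  first_exotic ha P hP hweil hg hD hslope f hf hfP hN F hV hgen hr Φ hW

end Pool.Agent.Results.MP_ee618e_ag.FirstExoticPower
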