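import Mathlib
import Pool.Agent.Q29.EP.Rows
import Pool.Agent.Q29.DP.Deg
import Pool.Agent.TH170.GS.Main
import Pool.Agent.TH117.BL.Main

/-!
# The Tate conjecture for abelian varieties over finite fields with one half of all slope types of
every CM field of degree `2 r ^ k`

Over an algebraic closure of the field with `p` elements each abelian variety is isogenous to the
reduction of an abelian variety of CM type (Honda, Tate). So an abelian variety over the field with
`p ^ a` elements is modelled by `RedAV` (starting files): a finite product of CM types `(E i, Φ i)`
with Weil numbers `π i ∈ E i` that satisfy the formula of Shimura and Taniyama; its cohomology of
degree `n`, with coefficients in an algebraically closed field `Ω`, consists of the alternating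
`n`-forms on `Ω ⊗ H_1`, on which the Frobenius endomorphism acts by `π`. We fix an isomorphism `ν` of
the algebraic closure of `ℚ_p` with `ℂ`; it defines a `p`-adic valuation of `ℂ`.

**Slope types.** Let `K` be a CM field of degree `2 g`, and let `M` be a function with integral
values on the complex embeddings of `K`, invariant under complex conjugation (the weights). A CM type
`Φ` of `K` (a choice of one element out of each complex conjugate pair of embeddings; there are
`2 ^ g` types), `M` and a real number `κ ≠ 0` prescribe the slopes `(a + κ M) / 2` (at the embeddings
in `Φ`) and `(a - κ M) / 2` (outside of `Φ`) of a Weil number in `K`. If `p` splits completely in `K`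
then, by Honda and Tate, all rational slopes between `0` and `a` that are symmetric in this way occur
for abelian varieties. The case `M = 1`, `κ = a` is the ordinary case.

Let `K i` be finitely many CM fields which are pairwise independent: for `i ≠ k` and all complex
embeddings `φ` of `K i` and `ψ` of `K k` some automorphism of `ℂ` is the identity on `φ (K i)` and
the complex conjugation on `ψ (K k)` (this is no condition for one field). For a family of types
`Φ i` with the weights `M i` let `𝒞` (`GS.OfTypes`) be the class of the abelian varieties `Y` each of
whose factors is supersingular or has a Frobenius endomorphism some power of which is, for some `i`,
a Weil number in `K i` with the slopes prescribed by `Φ i`, `M i` and some real number `κ i ≠ 0`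
(which depends only on `Y` and `i`). So `Y` is, over an algebraic closure, isogenous to a product of
powers of one abelian variety for each `i`, with the given slopes, and of a supersingular one. The
class `𝒞` contains all products of its members with the same `κ`, and their products with
supersingular abelian varieties.

**The property** (`TateConjecture`): for all `Y` in `𝒞` all Tate classes over all finite extensions
of the base field, of all degrees, are in `Alg Ω Y`, the span of the classes that are obtained from
classes of divisors and from the split Weil classes of degree four and six of the liftings (Markman;
not needed here) by cup products, pull-backs and push-forwards. So these classes are algebraic, and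
the Tate conjecture is true for `Y` for all prime numbers `ℓ ≠ p`.

**The theorem.** Let `E` be **any CM field of degree `2 g = 2 r ^ k`**, `r` a prime number, of
degree at least `16` if `r = 2`. Nothing is assumed about the Galois group of the normal closure of
`E`, and nothing about the subfields of `E`.

* (`HalfOfAll`) For all weights `M` (odd if `r = 2`; if `r` is odd then `r` may divide some, but not
  all of them) the Tate conjecture is true for **at least one half of all `2 ^ g` slope types** of `E`.
* (`MostWithWeightsOne`) For the weights `M = 1` (for instance for the ordinary abelian varieties) it
  is true for at least `(1 - 1 / r) 2 ^ g` of the types.
* (`OneOfTwo`) There is a set `B` of embeddings of `E`, stable under complex conjugation, such that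
  for **every** type `Φ` it is true for `Φ` or for the symmetric difference of `Φ` and `B`.
* (`SixteenPercent`) There is a number `g₀` such that for every CM field that is **abelian over
  `ℚ`**, of any degree `2 g ≥ 2 g₀`, and all odd weights it is true for at least 16 percent of all
  `2 ^ g` types; again nothing is assumed on the subfields.

All this is proved for finitely many pairwise independent fields `K i`; the proportions are then
multiplied. In the definitions of these four statements (`Pool.Agent.Q29.EP.RowsDefs`, starting
files) the property of the families of slope types is an argument.

**What was known.** The results of the starting files on this question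
(`AlmostAllSlopeTypes`, `AllCMFields`) give almost all types if the field has few CM subfields, or
if `g` has a large prime factor. They give nothing for the fields of 2-power degree with many CM
subfields: for instance, for multiquadratic fields of degree `2 g` the number of the fields of
definition is `g`, so that the bound is trivial. For them one half is the best possible proportion
of the types without relations if `M = 1` (`Pool.Agent.Q29.DP.multiquadratic`).

The statement that these slope types have no relations (`NoRelations`) is the library
`Pool.Agent.Q29` of the starting files, where the proof is explained; so far it was applied to the
conjecture of Parshin only. That the families without relations have elementary relations between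
the Frobenius eigenvalues, and that then all Tate classes are algebraic, was formalized by helper170
and helper117 (starting files). Here the three steps are put together.
-/

set_option autoImplicit false

namespace Pool.Agent.Results.MP_ee618e_ag.HalfOfAllSlopeTypes

open NumberField Module Pool.Agent.H204R3.CM Pool.Agent.H977R3.CM Pool.Agent.TH170
  Pool.Agent.Q29.EP Pool.Agent.Q29.DP

open Pool.Agent.W495.TA Pool.Agent.W547.KB

/-- The Tate conjecture for all abelian varieties `Y` with the slope types `Φ i` and the weights
`M i`: all Tate classes over finite extensions are in `Alg Ω Y`. -/
def TateConjecture : TypeProperty := fun p _ ν _ _ K _ _ _ M Φ =>
  ∀ (Ω : Type) [Field Ω] [CharZero Ω] [IsAlgClosed Ω] (Y : RedAV p ν), GS.OfTypes K M Φ Y →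
    ∀ (s m : ℕ) (f : (TM Ω Y) [⋀^Fin (2 * m)]→ₗ[Ω] Ω), 0 < s → IsTateClass Ω Y s m f →
      Alg Ω Y (Fin (2 * m)) f

theorem tate_without : WithoutRelations TateConjecture := by
  intro p _ ν I _ K _ _ _ M Φ hind hM hΦ hno Ω _ _ _ Y hY s m f hs hf
  have h1 : TH117.BL.HasElementaryRelations Y :=
    GS.elementary_of_types hind hM hΦ (fun i => notMem_degTypes_of_noRelations (hno i)) hY
  exact TH117.BL.elementary Y h1 Ω Y
    (fun k => Or.inr ⟨k, RingHom.id _, 1, 1, one_pos, one_pos, rfl, rfl⟩) s m hs f hf

/-- **The Tate conjecture for the abelian varieties over finite fields with one half of all slope
types of every CM field of degree `2 r ^ k`.** -/
theorem result : HalfOfAll TateConjecture ∧ MostWithWeightsOne TateConjecture ∧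
    OneOfTwo TateConjecture ∧ SixteenPercent TateConjecture :=
  ⟨halfOfAll tate_without, mostWithWeightsOne tate_without, oneOfTwo tate_without,
    sixteenPercent tate_without⟩

end Pool.Agent.Results.MP_ee618e_ag.HalfOfAllSlopeTypes
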