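import Pool.Agent.L7h94.SI.Final

/-!
# The share of the algebraic classes, and one explicit power which decides the index

Let `A` be an abelian variety of dimension `g` over an algebraic closure of a finite field. Let

* `t(n)` be the dimension of the space of all Tate classes on `A ^ n`,
* `c(n)` the rank of the group of all cycles on `A ^ n` modulo numerical equivalence,
* `k` the number of the irreducible factors over the rational numbers of the characteristic
  polynomial of Frobenius on `H^1(A)`, and `D` a common denominator of the slopes of `A`.

The Tate conjecture and `hom = num` for all powers of `A` are equivalent to `t(n) = c(n)` for all `n`. It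
is known (`MP_0f183b_ag.PositiveProportion`) that `t(n) / c(n)` tends to a natural number or infinity,
the index `N` of the Tate classes, and that finiteness of `N` implies `hom = num` and the Tate
conjecture up to `N - 1` classes.

Theorem. (1) `t(n) ^ 2 ≤ (4 n) ^ (g - 1) c(n) ^ 2` for all `n`.

(2) Let `r ≥ 1` be an integer and `ε > 0`. If `t(n) < (r + 1) (1 - ε) c(n)` for a single
`n ≥ r ^ 4 ε ^ (-2) exp (60 √(2 g k) log (4 g) log (4 g D))`, then `t(n') ≤ r c(n')` for all `n'`, and the
index is at most `r`.

(3) If more than half of the Tate classes on this power are algebraic, `t(n) < 2 (1 - ε) c(n)`, then the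
Tate conjecture holds for all powers of `A`, and `t(n') = c(n')` (that is `hom = num`).

So the algebraic classes on the powers of `A` are never rare: they are a polynomial part of the Tate
classes. And the index can be read off from one explicit power, approximately: there is no gradual
decay, if the share of the algebraic classes is smaller than `1 / r` for large `n`, then it is smaller
than `1 / (r (1 - ε))` on all explicitly large powers.

The proof. The cohomology of `A ^ n` is the exterior algebra on `n` copies of the eigenvectors of
Frobenius in `H^1(A)` (the letters). A product of letters depends, modulo cup products with products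
of dual letters, which are algebraic by Tate's theorem, only on its class in the group `ℤ^β` of
vectors of multiplicities modulo balanced vectors. With correspondences which are products of
letters one shows that the space of algebraic classes is spanned by products of letters, that the
classes of the numerically nontrivial ones form a subgroup `R`, and that the classes of the Tate
classes form a group `T ⊇ R`. So `c(n)` and `t(n)` are the numbers of the subsets of the letters of `A^n`
whose sum is in `R` and in `T`. The distribution `ν` of the sum of a random subset in `ℤ^β / R` is the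
convolution of a function `f` and its reflection, where `f` is a product of `g` binomial distributions.
By the logarithmic convexity of the norms of `f * (1 + [l]) ^ j` the distribution is nearly invariant
under the letters: `ν(0) - ν(l) ≤ (2 g log (n + 1) / n) ν(0)`. By the triangle inequality in `ℓ^2` it is
nearly invariant under short vectors, and `T` is generated by short vectors (the theorem on short
generation from `MP_0f183b_ag.OnePowerDecides`). If `T / R` has more than `r` elements then it has
`r + 1` elements given by short vectors, so `t(n) ≥ (r + 1) (1 - ε) c(n)`.

The setting is that of the starting files: `W` is a Weil cohomology theory on smooth projective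
varieties over an algebraic closure of a finite field, `Φ` the system of Frobenius endomorphisms,
`pw A n` the power with `n + 1` factors, `IsAbelian Φ A m D₀` says that `A` has the known properties of
an abelian variety with addition `m` and ample divisor `D₀`.
-/

set_option autoImplicit false

open CategoryTheory AlgebraicGeometry

open scoped ENNReal

universe u v

namespace Pool.Agent.Results.MP_ee618e_ag.OnePowerIndex

open Pool.Agent.H914 Pool.Agent.W534 Pool.Agent.R940 VarClass Obj WeilCohomology
open Pool.Agent.Y133.Half (tateDim cycRank)
open Pool.Agent.Y129 (pw)
open Pool.Agent.N181.Ab (IsAbelian)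
open Pool.Agent.L7h94.GP (numClasses)

/-- The share of the algebraic classes among the Tate classes on the powers of an abelian variety,
and the limit of the share. -/
theorem result {k : Type u} [Field k] {𝒱 : VarClass k} {ops : CycleOps 𝒱}
    (W : WeilCohomology.{u, v} ops) [IsAlgClosed W.K] (σ : W.K →+* ℂ) (p : ℕ) [Fact p.Prime]
    (Φ : FrobSystem W p) (A : 𝒱.Obj) [Nontrivial (W.H A)] (m : A.prod A ⟶ A) (D₀ : A.Cycles)
    (hA : IsAbelian Φ A m D₀) :
    (∀ n, tateDim Φ (pw A n) ^ 2 ≤
      (4 * (n + 1)) ^ (A.dim - 1) * cycRank ops (pw A n) ^ 2) ∧
    (RiemannHyp Φ σ A → HasIntegralPolys Φ σ A → ∀ D, IsSlopeDenominator Φ σ A D →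
      ∀ (r n : ℕ) (ε : ℝ), 1 ≤ r → 0 < ε →
        (r : ℝ) ^ 4 / ε ^ 2 * Real.exp (60 * √(2 * A.dim * numClasses Φ σ A 1) *
          Real.log (4 * A.dim) * Real.log (4 * A.dim * D)) ≤ (n + 1 : ℕ) →
        (tateDim Φ (pw A n) : ℝ) < (r + 1) * (1 - ε) * cycRank ops (pw A n) →
        (∀ n', tateDim Φ (pw A n') ≤ r * cycRank ops (pw A n')) ∧
        (∃ N : ℕ, 1 ≤ N ∧ N ≤ r ∧ Filter.Tendsto (fun n' =>
          (tateDim Φ (pw A n') : ℝ≥0∞) / cycRank ops (pw A n')) Filter.atTop (nhds N)) ∧
        (r = 1 → ∀ n' j, TateIn Φ (pw A n') j)) := by
  refine ⟨Pool.Agent.L7h94.SI.share_ab hA, fun hRH hint D hD r n ε hr hε hn ht => ?_⟩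
  obtain ⟨h0, N, h1, h2, h3⟩ := Pool.Agent.L7h94.SI.index_ab hA hRH hint hD hr hε hn ht
  refine ⟨h0, ⟨N, h1, h2, h3.tate⟩, fun hr1 n' j => ?_⟩
  subst hr1
  obtain rfl : N = 1 := le_antisymm h2 h1
  exact (h3.one_iff.1 Nat.cast_one n' j).1

end Pool.Agent.Results.MP_ee618e_ag.OnePowerIndex
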